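import Pool.Agent.Helper71.PY.Defs

/-!
# Goals for MP_293fae_al

Main theorem: let `R` be a regular local ring of dimension 2 with `2` invertible, `K = Frac R`,
`u_1, …, u_n` units of `R` and `f ∈ R`. If `f = ∑ u_i z_i²` with `z_i ∈ K` then
`f = ∑ u_i y_i²` with `y_i ∈ R`. In particular the Pythagoras numbers of `R` and `K` agree.
-/

set_option autoImplicit false

namespace Pool.Agent.Helper71.PY

open Matrix

/-- **REG.** Elementary structure of a two-dimensional regular local ring.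

Proof. Let `m = (x, y)` be the maximal ideal. `x ≠ 0`: otherwise `m = (y)` has height `≤ 1`
(Krull's Hauptidealsatz, `Ideal.height_le_one_of_isPrincipal_of_mem_minimalPrimes`), but the height
of `m` is `ringKrullDim R = 2` (`IsLocalRing.maximalIdeal_height_eq_ringKrullDim`).
(N) no power `y^k` lies in `(x)`: if it did, every prime ideal containing `x` would contain `y`,
hence `m`, so `m` would be minimal over `(x)` and of height `≤ 1`, contradiction.
`norm`: let `r ∉ (x)`. In the Noetherian local ring `B = R/(x)` (local as a quotient of a local ring)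
with maximal ideal `m_B = (ȳ)`, the Krull intersection theorem gives `⋂ m_B^k = 0`, so there is a
largest `k` with `r̄ ∈ m_B^k = (ȳ^k)`; write `r = c y^k + x s`. If `c ∈ m` then `c = αx + βy` and
`r̄ ∈ (ȳ^{k+1})`, contradiction; so `c` is a unit and `x ∣ r - c y^k`. (One can also avoid the
quotient: use `⨅ k, ((x) ⊔ m^k) = (x)`, e.g. `Ideal.isHausdorff`/`Ideal.iInf_pow_smul_eq_bot_of_isLocalRing`
for the module `R/(x)`.)
`prx`: `x ≠ 0` and `x ∈ m` is not a unit. If `x ∣ ab` but `x ∤ a` and `x ∤ b`, then by `norm`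
`a ≡ u y^k`, `b ≡ v y^l` mod `x` with units `u, v`, so `x ∣ uv y^{k+l}` and `x ∣ y^{k+l}`,
contradicting (N).
`ndvd`: (N) with `k = 1`. -/
def G_REG : Prop :=
  ∀ (R : Type) [CommRing R] [IsDomain R] [IsLocalRing R] [IsNoetherianRing R] (x y : R),
    ringKrullDim R = 2 → IsLocalRing.maximalIdeal R = Ideal.span {x, y} → Reg2 R x y

/-- **FREE.** A finitely generated torsion-free module `M` over `R` such that `y m ∈ x M` implies
`m ∈ x M` is free.

Proof. Let `r` be minimal such that `M` is generated by `r` elements `m_1, …, m_r`. Claim: they are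
linearly independent (then they form a basis). Suppose `∑ c_i m_i = 0` with not all `c_i = 0`. By
the Krull intersection theorem (`⋂ (x^k) = 0`; some `c_i ≠ 0` is not divisible by a large power of
`x`, see e.g. `FiniteMultiplicity.of_prime...` / `Ideal.iInf_pow_eq_bot_of_isLocalRing`, or
well-foundedness of divisibility in a Noetherian domain) we can divide the relation by the largest
power of `x` dividing all `c_i` (torsion-freeness) and assume that some `c_i` is not divisible by
`x`. By `norm` every `c_i` not divisible by `x` is `≡ u_i y^{k_i}` mod `x` with a unit `u_i`. Let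
`i₀` be an index with `x ∤ c_{i₀}` and `k = k_{i₀}` minimal. Then every `c_i` is
`≡ y^k c_i'` mod `x`, where `c'_{i₀} = u_{i₀}` is a unit (`c_i' = u_i y^{k_i - k}` if `x ∤ c_i`,
`c_i' = 0` if `x ∣ c_i`). So `y^k (∑ c_i' m_i) ∈ x M`, and by the hypothesis applied `k` times (by
induction on `k`: `y^{k+1} m ∈ xM` gives `y^k m ∈ x M`) we get `∑ c_i' m_i = x m'`, with
`m' = ∑ d_i m_i`. Hence `∑ (c_i' - x d_i) m_i = 0` and the coefficient of index `i₀` is a unit
(unit minus an element of the maximal ideal). So `m_{i₀}` is a combination of the other `m_i`, and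
`M` is generated by `r - 1` elements, contradicting the minimality of `r`. -/
def G_FREE : Prop :=
  ∀ (R : Type) [CommRing R] [IsDomain R] [IsLocalRing R] [IsNoetherianRing R] (x y : R),
    Reg2 R x y →
    ∀ (M : Type) [AddCommGroup M] [Module R M] [Module.Finite R M],
      (∀ (r : R) (m : M), r • m = 0 → r = 0 ∨ m = 0) →
      (∀ m m' : M, y • m = x • m' → ∃ m'' : M, m = x • m'') →
      Module.Free R M

/-- **UFD.** `R` is a unique factorization domain and every prime ideal other than `0` and the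
maximal ideal `m` is generated by a prime element.

Proof. Let `P` be a prime ideal, `P ≠ 0`, `P ≠ m`. Then `x ∉ P` or `y ∉ P` (otherwise
`m = (x, y) ≤ P`, so `P = m`). `P` as an `R`-module is finitely generated and torsion-free. It
satisfies the second hypothesis of `G_FREE`: let `m, p ∈ P` with `y m = x p` in `R`. Since `x` is
prime and `x ∤ y`, `x ∣ m`, `m = x m'`. Cancel `x`: `y m' = p ∈ P`, and `x m' = m ∈ P`. As `x ∉ P` or
`y ∉ P`, we get `m' ∈ P`, so `m ∈ x P`. By `G_FREE`, `P` is a free `R`-module. If it had a basis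
with two different elements `b, c` then `c • b - b • c = 0` would be a nontrivial relation
(`b, c ≠ 0`), so the basis has at most one element, i.e. `P = (π)` is principal; `π ≠ 0` is prime
since `P` is a nonzero prime ideal (`Ideal.span_singleton_prime`).
UFD: by Kaplansky's criterion (`UniqueFactorizationMonoid.iff_exists_prime_mem_of_isPrime`) every
nonzero prime ideal must contain a prime element: `π ∈ P` as above, and `x ∈ m` for `P = m`. -/
def G_UFD : Prop :=
  ∀ (R : Type) [CommRing R] [IsDomain R] [IsLocalRing R] [IsNoetherianRing R] (x y : R),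
    Reg2 R x y →
    UniqueFactorizationMonoid R ∧
    ∀ P : Ideal R, P.IsPrime → P ≠ ⊥ → P ≠ IsLocalRing.maximalIdeal R →
      ∃ π : R, Prime π ∧ P = Ideal.span {π}

/-- **DVR.** The localization of a Noetherian domain at a principal nonzero prime ideal `(π)` is a
discrete valuation ring.

Proof. `O = R_P` is a Noetherian local domain whose maximal ideal is generated by the image of
`π ≠ 0` (`IsLocalization.AtPrime.map_eq_maximalIdeal` or `Localization.AtPrime.map_eq_maximalIdeal`), it is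
not a field as its maximal ideal is nonzero. Use `IsDiscreteValuationRing.TFAE` (maximal ideal
principal ⟹ DVR). -/
def G_DVR : Prop :=
  ∀ (R : Type) [CommRing R] [IsDomain R] [IsNoetherianRing R] (π : R), Prime π →
    ∀ (P : Ideal R) [P.IsPrime], P = Ideal.span {π} →
      IsDiscreteValuationRing (Localization.AtPrime P)

/-- **DD.** (Double dual at a height one prime.) Let `Λ` be a full finitely generated lattice in
`K^n`, `π` a prime element and `w` in the double dual of `Λ` (for `b = bK d`). Then `s w ∈ Λ` for some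
`s` not divisible by `π`.

Proof. Let `P = (π)` and `O = R_P ⊂ K` (`Localization.AtPrime P`; `K` is its fraction field: there
are Mathlib constructions `IsLocalization.localizationAlgebraOfSubmonoidLe`,
`IsFractionRing.isFractionRing_of_isDomain_of_isLocalization`; alternatively work with the subring
`O = {z ∈ K | ∃ s, π ∤ s, s z ∈ R}`), a DVR by `G_DVR`, in particular a PID. Let `Λ_O` be the
`O`-span of `Λ` in `K^n`: a finitely generated torsion-free `O`-module, hence free; let
`e_1, …, e_m` be a basis. It is `K`-linearly independent (clear denominators) and spans `K^n`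
(`Λ` is full), so `m = n` and it is a `K`-basis of `K^n`. Since `b` is nondegenerate (`d_i ≠ 0`)
there is a dual basis `e_i^*` with `b(e_i^*, e_j) = δ_ij`. For `g ∈ Λ ⊂ Λ_O` we have
`b(e_i^*, g) ∈ O`. As `Λ` is finitely generated there is a common `s ∈ R`, `π ∤ s`, with
`b(s e_i^*, g) ∈ R` for all `g ∈ Λ` and all `i`. By hypothesis `b(s e_i^*, w) ∈ R`. Hence
`s w = ∑ b(s e_i^*, w) e_i ∈ Λ_O` (a combination of the `e_i` with coefficients in `R`). Elements of
`Λ_O` become elements of `Λ` after multiplication by some `s'` with `π ∤ s'`. So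
`(s' s) w ∈ Λ`, and `π ∤ s' s`.

Elementary variant without `O`: pick `g_1, …, g_N` generating `Λ`; among the `n`-subsets `J` with
`det g_J ≠ 0` choose one with minimal `π`-adic valuation; by Cramer's rule all `g_j` are combinations
of the `g_i`, `i ∈ J`, with coefficients in `O`. -/
def G_DD : Prop :=
  ∀ (R : Type) [CommRing R] [IsDomain R] [IsNoetherianRing R] (K : Type) [Field K] [Algebra R K]
    [IsFractionRing R K] (π : R), Prime π → ∀ (n : ℕ) (d : Fin n → K), (∀ i, d i ≠ 0) →
    ∀ Λ : Submodule R (Fin n → K), Λ.FG → (∀ v : Fin n → K, ∃ r : R, r ≠ 0 ∧ r • v ∈ Λ) →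
    ∀ w : Fin n → K,
      (∀ v : Fin n → K, (∀ g ∈ Λ, IntK R (bK d v g)) → IntK R (bK d v w)) →
      ∃ s : R, ¬ π ∣ s ∧ s • w ∈ Λ

/-- **MIX.** Existence of a maximal integral lattice containing a given integral vector.

Proof. Put `d i = algebraMap R K (u i) ≠ 0`, `L = {v | all v_i ∈ R}` (the image of `R^n`). Let `a ∈ R`,
`a ≠ 0` be a common denominator of `X`: `a X ∈ L`. `N₀ = R X + a L` is an integral lattice:
`b(X, X) ∈ R` by hypothesis, `b(X, a l) = b(aX, l) ∈ R` and `b(al, al') ∈ R` (the `u i` are in `R`).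
Let `u = ∏ u_i`. Every `v` with `b(v, N₀) ⊂ R` satisfies `b(v, a e_i) = a u_i v_i ∈ R`, so
`v ∈ L' := {v | a u v_i ∈ R for all i}`, which is a finitely generated `R`-module (isomorphic to
`R^n`), hence Noetherian. So among the integral lattices `M ⊇ N₀` (submodules with
`b(M, M) ⊂ R`; all are contained in `L'`) there is a maximal one `M` (Noetherian: every
nonempty set of submodules of `L'` has a maximal element). `M` is finitely generated, full (contains
`aL`; for `v ∈ K^n` there is `r ≠ 0` with `r v ∈ L`, so `a r v ∈ aL`), integral. `maxl`: if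
`b(v, M) ⊂ R` and `b(v, v) ∈ R` then `M + R v` is integral and contains `N₀`, so it equals `M` and
`v ∈ M`. And `X ∈ N₀ ⊂ M`. -/
def G_MIX : Prop :=
  ∀ (R : Type) [CommRing R] [IsDomain R] [IsNoetherianRing R] (K : Type) [Field K] [Algebra R K]
    [IsFractionRing R K] (n : ℕ) (u : Fin n → R), (∀ i, u i ≠ 0) →
    ∀ X : Fin n → K, IntK R (bK (fun i => algebraMap R K (u i)) X X) →
      ∃ M : Submodule R (Fin n → K), MI (fun i => algebraMap R K (u i)) M ∧ X ∈ M

/-- **XY.** A maximal integral lattice `M` has the property: `x z, y z ∈ M ⟹ z ∈ M`.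

Proof. (i) If `c ∈ K` and `x c, y c ∈ R` then `c ∈ R`: let `x c = r`, `y c = s` with `r, s ∈ R`;
then `y r = x s`, so `x ∣ y r`, and as `x` is prime with `x ∤ y`, `x ∣ r`, `r = x t`, `c = t`
(`x ≠ 0` in `K`). (ii) Let `x z, y z ∈ M`. For `w ∈ M`: `x b(z, w) = b(xz, w) ∈ R` and
`y b(z, w) ∈ R`, so `b(z, w) ∈ R` by (i). In particular `x b(z, z) = b(z, xz) ∈ R` and
`y b(z, z) ∈ R`, so `b(z, z) ∈ R`. By `maxl`, `z ∈ M`. -/
def G_XY : Prop :=
  ∀ (R : Type) [CommRing R] [IsDomain R] [IsLocalRing R] [IsNoetherianRing R] (x y : R),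
    Reg2 R x y → ∀ (K : Type) [Field K] [Algebra R K] [IsFractionRing R K] (n : ℕ)
    (d : Fin n → K) (M : Submodule R (Fin n → K)), MI d M →
      ∀ z : Fin n → K, x • z ∈ M → y • z ∈ M → z ∈ M

/-- **UNIM.** A maximal integral lattice in the space of the diagonal form with unit coefficients
is equal to its dual.

Proof. Put `M^# = {v | b(v, w) ∈ R for all w ∈ M}` and suppose there is `v ∈ M^#`, `v ∉ M`. Among the
ideals `(M : v) = {r ∈ R | r v ∈ M}` with `v ∈ M^# ∖ M` choose a maximal one (Noetherian), with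
vector `v`. It is prime: it is proper as `v ∉ M`; if `ab ∈ (M : v)`, `b ∉ (M : v)` then
`b v ∈ M^# ∖ M` and `(M : bv) ⊇ (M : v)`, so equality by maximality and `a ∈ (M : bv) = (M : v)`. It
is nonzero by `full`. It is not the maximal ideal: otherwise `x v, y v ∈ M` and `v ∈ M` by `G_XY`.
So it is `(π)` with a prime element `π` by `G_UFD`: for `r ∈ R`, `r v ∈ M ⟺ π ∣ r`.
Let `L = {w | all w_i ∈ R}` (image of `R^n`). If `t ∈ K^n` satisfies `b(t, l) ∈ R` for all `l ∈ L`
then `u_i t_i ∈ R`, so `t ∈ L` as the `u_i` are units. Further `L ∩ M^# ⊂ M`: for `t` in it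
`b(t, t) = ∑ u_i t_i² ∈ R`, so `t ∈ M` by `maxl`.
Let `Λ = L + M`, finitely generated and full. `v` satisfies the hypothesis of `G_DD`: if
`b(t, g) ∈ R` for all `g ∈ Λ` then `t ∈ L ∩ M^# ⊂ M`, so `b(t, v) ∈ R` since `v ∈ M^#`. By `G_DD`
there is `s` with `π ∤ s` and `s v = l + m`, `l ∈ L`, `m ∈ M`. Then `l = s v - m ∈ M^# ∩ L ⊂ M`, so
`s v ∈ M` and `π ∣ s`, contradiction. -/
def G_UNIM : Prop :=
  ∀ (R : Type) [CommRing R] [IsDomain R] [IsLocalRing R] [IsNoetherianRing R] (x y : R),
    Reg2 R x y → ∀ (K : Type) [Field K] [Algebra R K] [IsFractionRing R K] (n : ℕ)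
    (u : Fin n → R), (∀ i, IsUnit (u i)) → ∀ M : Submodule R (Fin n → K),
    MI (fun i => algebraMap R K (u i)) M →
      ∀ v : Fin n → K, (∀ w ∈ M, IntK R (bK (fun i => algebraMap R K (u i)) v w)) → v ∈ M

/-- **BAS.** A maximal integral lattice is free: `M = A R^n` for an invertible matrix `A` over `K`.

Proof. `M` is finitely generated and torsion-free (a submodule of the `K`-vector space `K^n`, `R → K`
injective). It satisfies the hypothesis of `G_FREE`: if `y m = x m'` with `m, m' ∈ M`, put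
`z = x⁻¹ m ∈ K^n` (`x ≠ 0`); then `x z = m ∈ M` and `y z = x⁻¹ (y m) = m' ∈ M`, so `z ∈ M` by `G_XY`,
and `m = x z`. So `M` has an `R`-basis `b_1, …, b_m`. It is linearly independent over `K` (clear
denominators) and spans `K^n` over `K` (`full`), so it is a `K`-basis and `m = n`. Let `A` be the
matrix with columns `b_j`, reindexed by `Fin n`; `det A ≠ 0`, and `v ∈ M` iff `v = ∑ c_j b_j = A c`
with `c_j ∈ R`. -/
def G_BAS : Prop :=
  ∀ (R : Type) [CommRing R] [IsDomain R] [IsLocalRing R] [IsNoetherianRing R] (x y : R),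
    Reg2 R x y → ∀ (K : Type) [Field K] [Algebra R K] [IsFractionRing R K] (n : ℕ)
    (d : Fin n → K) (M : Submodule R (Fin n → K)), MI d M →
      ∃ A : Matrix (Fin n) (Fin n) K, A.det ≠ 0 ∧
        ∀ v : Fin n → K, v ∈ M ↔ ∃ c : Fin n → R, v = A *ᵥ (fun i => algebraMap R K (c i))

/-- **LAT.** If `f = ∑ u_i X_i²` with `X_i ∈ K` then there is a unimodular symmetric matrix `S`
over `R`, congruent over `K` to `diag(u)`, whose quadratic form represents `f` over `R`.

Proof. By `G_MIX` (`b(X, X) = f ∈ R`) choose a maximal integral lattice `M ∋ X`, and `A` by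
`G_BAS`. The columns `A_j = A e_j` are in `M`, so `S_ij := b(A_i, A_j)` is in `R` (`MI.int`); this
defines a symmetric matrix `S` over `R` whose image over `K` is `Aᵀ D A`, `D = diag(u)`.
`S` is unimodular: `A` and `D` are invertible over `K`; let `w_i = ` the `i`-th column of
`(Aᵀ D)⁻¹`, so that `b(A_j, w_i) = (Aᵀ D w_i)_j = δ_ij`. Then for every `w = A c ∈ M` (`c ∈ R^n`),
`b(w_i, w) = c_i ∈ R`, so `w_i ∈ M` by `G_UNIM`, `w_i = A T_i` with `T_i ∈ R^n`. The matrix `T` with
columns `T_i` satisfies `A T = (Aᵀ D)⁻¹`, so `S T = Aᵀ D A T = 1`: `det S` is a unit.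
Finally `X = A c` with `c ∈ R^n`, and `cᵀ S c = Xᵀ D X = f`. -/
def G_LAT : Prop :=
  ∀ (R : Type) [CommRing R] [IsDomain R] [IsLocalRing R] [IsNoetherianRing R] (x y : R),
    Reg2 R x y → ∀ (K : Type) [Field K] [Algebra R K] [IsFractionRing R K] (n : ℕ)
    (u : Fin n → R), (∀ i, IsUnit (u i)) → ∀ (f : R) (X : Fin n → K),
    ∑ i, algebraMap R K (u i) * X i * X i = algebraMap R K f →
      ∃ (S : Matrix (Fin n) (Fin n) R) (A : Matrix (Fin n) (Fin n) K) (c : Fin n → R),
        Sᵀ = S ∧ IsUnit S.det ∧ A.det ≠ 0 ∧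
        S.map (algebraMap R K) = Aᵀ * Matrix.diagonal (fun i => algebraMap R K (u i)) * A ∧
        c ⬝ᵥ S *ᵥ c = f

/-- **PP.** The graph of `A` is a Lagrangian submodule of `S ⊥ (-D)`.

Proof. Let `P = {(v, w) ∈ R^n × R^n | A v = w in K^n}`, a submodule. For `(v, w), (v', w') ∈ P` the
value of the form is `v'ᵀ S v - w'ᵀ D w = v'ᵀ Aᵀ D A v - (A v')ᵀ D (A v) = 0` in `K`, so `0` in
`R`. Conversely let `(v, w)` be orthogonal to `P`. For every `v' ∈ K^n` there is `r ≠ 0` in `R` with
`r v' ∈ R^n` and `r A v' ∈ R^n` (common denominator of finitely many elements,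
`IsLocalization.exist_integer_multiples_of_finset`), so `(r v', r A v') ∈ P`, and
`0 = r (v'ᵀ Aᵀ D A v - (A v')ᵀ D w) = r v'ᵀ Aᵀ D (A v - w)`. As `r ≠ 0` and `v'` is arbitrary,
`Aᵀ D (A v - w) = 0`, and `A v = w` since `Aᵀ` and `D` are invertible (`det A ≠ 0`, `u_i` units). -/
def G_PP : Prop :=
  ∀ (R : Type) [CommRing R] [IsDomain R] (K : Type) [Field K] [Algebra R K] [IsFractionRing R K]
    (n : ℕ) (u : Fin n → R), (∀ i, IsUnit (u i)) →
    ∀ (S : Matrix (Fin n) (Fin n) R) (A : Matrix (Fin n) (Fin n) K), A.det ≠ 0 →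
      S.map (algebraMap R K) = Aᵀ * Matrix.diagonal (fun i => algebraMap R K (u i)) * A →
      ∃ P : Submodule R ((Fin n → R) × (Fin n → R)),
        Lg (os (mf S) (mf (Matrix.diagonal fun i => - u i))) P

/-- **SPM.** A symmetric matrix with unit determinant defines a symmetric perfect form; orthogonal
sums of symmetric perfect forms are symmetric perfect, and the hyperbolic plane is symmetric
perfect.

Proof. `mf S v = 0` means `v ⬝ᵥ S *ᵥ w = 0` for all `w`, i.e. `Sᵀ v = 0`, `v = 0`. Surjectivity: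
a linear form on `R^n` is `w ↦ a ⬝ᵥ w`; take `v = (Sᵀ)⁻¹ a`. Orthogonal sum: a linear form on
`N × N'` is `(φ, ψ)`. Hyperbolic plane: a linear form on `R × R` is `(s, t) ↦ α s + β t`, given by
`v = (β, α)`. -/
def G_SPM : Prop :=
  (∀ (R : Type) [CommRing R] (n : ℕ) (S : Matrix (Fin n) (Fin n) R), Sᵀ = S → IsUnit S.det →
    Sp (mf S)) ∧
  (∀ (R : Type) [CommRing R] (N N' : Type) [AddCommGroup N] [Module R N] [AddCommGroup N']
    [Module R N'] (B : N →ₗ[R] N →ₗ[R] R) (B' : N' →ₗ[R] N' →ₗ[R] R), Sp B → Sp B' →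
    Sp (os B B')) ∧
  (∀ (R : Type) [CommRing R], Sp (hyp R))

/-- **PFREE.** A Lagrangian submodule `P = P^⊥` of a finite free `R`-module is free.

Proof. `P` is finitely generated (`R` Noetherian) and torsion-free (submodule of a free module over
a domain). `P` is pure: if `r n ∈ P`, `r ≠ 0`, then for `w ∈ P`, `r B(n, w) = 0`, so `B(n, w) = 0`
and `n ∈ P`. Hypothesis of `G_FREE`: let `y p = x p'` with `p, p' ∈ P`. In coordinates of the free
module `N`: `x ∣ y p_i` for all `i`, so `x ∣ p_i` (`x` prime, `x ∤ y`), and `p = x n` with `n ∈ N`; by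
purity (`x ≠ 0`) `n ∈ P`. So `P` is free by `G_FREE`. -/
def G_PFREE : Prop :=
  ∀ (R : Type) [CommRing R] [IsDomain R] [IsLocalRing R] [IsNoetherianRing R] (x y : R),
    Reg2 R x y → ∀ (N : Type) [AddCommGroup N] [Module R N] [Module.Finite R N] [Module.Free R N]
    (B : N →ₗ[R] N →ₗ[R] R) (P : Submodule R N), Lg B P → Module.Free R P

/-- **EXT.** A linear form on a pure submodule extends to the whole module after multiplication by
some `s` not divisible by the prime `π`.

Proof. Let `p = (π)`, `O = R_p = Localization.AtPrime p`, a DVR by `G_DVR`. `Q = N/P` is finitely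
generated and torsion-free over `R` (hypothesis), so `Q_O = LocalizedModule p.primeCompl Q` is
finitely generated and torsion-free over the PID `O`, hence free (projective), and the exact sequence
`0 → P_O → N_O → Q_O → 0` splits: there is an `O`-linear retraction `ρ : N_O → P_O` (of the injective
map `P_O → N_O`). The linear form `φ` induces `φ_O : P_O → O` (`LocalizedModule.map` /
`IsLocalizedModule.map`). The composition `ψ : N → N_O → P_O → O` is `R`-linear and satisfies
`ψ(p) = φ(p)/1` for `p ∈ P`. `N` is generated by finitely many `n_j`; choose `s ∉ p` with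
`s ψ(n_j) ∈ R` for all `j` (common denominator). Then `s ψ` takes values in the image of `R → O`
(injective, `R` is a domain), so it defines an `R`-linear `Φ : N → R` with
`Φ(p) = s φ(p)` for `p ∈ P`.

Alternative without localized modules: work with the vector space `K ⊗ N` (for `N` free: `N ≅ R^k`,
`K^k`), the subring `O ⊂ K`, and `O`-spans. The statement includes `Module.Free R N` to make this
possible. -/
def G_EXT : Prop :=
  ∀ (R : Type) [CommRing R] [IsDomain R] [IsNoetherianRing R] (π : R), Prime π →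
    ∀ (N : Type) [AddCommGroup N] [Module R N] [Module.Finite R N] [Module.Free R N]
    (P : Submodule R N), (∀ (r : R) (n : N), r ≠ 0 → r • n ∈ P → n ∈ P) →
    ∀ φ : P →ₗ[R] R, ∃ s : R, ¬ π ∣ s ∧ ∃ Φ : N →ₗ[R] R, ∀ p : P, Φ p = s * φ p

/-- **FL.** The cokernel `C` of `N → P^*` has finite length for a Lagrangian submodule `P`.

Proof. `P` is finite and free by `G_PFREE`, so `P^*` and `C` are finitely generated. `P` is pure in
`N` (if `r n ∈ P`, `r ≠ 0` then `r B(n, w) = 0` for `w ∈ P`, so `n ∈ P`). For a linear form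
`φ : P → R` let `J_φ = {r | r φ ∈ range ν}`. By `G_EXT` and the surjectivity of `v ↦ B v`
(`Sp.perf`), for every prime element `π` there is `s ∈ J_φ` with `π ∤ s` (`s φ = Φ|P`, `Φ = B n`). In
particular (with `π = x`) `J_φ ≠ 0`. By `G_UFD` the only prime ideal that can contain `J_φ` is the
maximal ideal `m`. Let `φ_1, …, φ_k` generate `P^*` and `I = ⋂ J_{φ_i}` (it annihilates `C`); a prime
ideal containing `I` contains some `J_{φ_i}` (`Ideal.IsPrime.inf_le'`), so it is `m`. Hence `R/I` is a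
Noetherian ring all of whose primes are maximal, so Artinian (`isArtinianRing_iff_...krullDimLE_zero`),
and `C`, a finitely generated `R/I`-module, has finite length over `R/I` and hence over `R`. (Or:
`m^k ≤ I` for some `k`, and `C ⊇ mC ⊇ … ⊇ m^k C = 0` has successive quotients finite-dimensional
over `R/m`.) -/
def G_FL : Prop :=
  ∀ (R : Type) [CommRing R] [IsDomain R] [IsLocalRing R] [IsNoetherianRing R] (x y : R),
    Reg2 R x y → ∀ (N : Type) [AddCommGroup N] [Module R N] [Module.Finite R N] [Module.Free R N]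
    (B : N →ₗ[R] N →ₗ[R] R), Sp B → ∀ P : Submodule R N, Lg B P →
      Module.length R (Cok B P) ≠ ⊤

/-- **SOC.** If `C ≠ 0` has finite length there is a linear form `z` on `P`, not of the form
`ν(n)`, with `x z = ν(nx)` and `y z = ν(ny)`.

Proof. A nonzero module `C` of finite length over a local ring contains a simple submodule, which
is isomorphic to `R/m`; so there is `c ∈ C`, `c ≠ 0`, with `m c = 0`. (E.g.: `C` is Artinian
and nontrivial, so it has an atom `Rc`; the annihilator of `c` is a maximal ideal, so it is `m`;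
or: `m^k C = 0` for some `k`, take the last nonzero `m^i C`.) Lift `c` to `z ∈ P^*`; `x, y ∈ m`
(`Reg2.max`), so `x z, y z ∈ range ν`. -/
def G_SOC : Prop :=
  ∀ (R : Type) [CommRing R] [IsDomain R] [IsLocalRing R] [IsNoetherianRing R] (x y : R),
    Reg2 R x y → ∀ (N : Type) [AddCommGroup N] [Module R N] (B : N →ₗ[R] N →ₗ[R] R)
    (P : Submodule R N), Module.length R (Cok B P) ≠ ⊤ → Module.length R (Cok B P) ≠ 0 →
      ∃ (z : P →ₗ[R] R) (nx ny : N), z ∉ LinearMap.range (nu B P) ∧
        (∀ p : P, B nx p = x * z p) ∧ (∀ p : P, B ny p = y * z p)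

/-- **STAB.** Adding a hyperbolic plane: `P' = P × (R × 0)` is Lagrangian in `N' = N × (R × R)`, the
length of the cokernel does not increase, and `z' : (p, (t, 0)) ↦ z p + t` is not in the range of
`ν'` if `z` is not in the range of `ν`.

Proof. `(n, (s, t)) ∈ P'` iff `n ∈ P` and `t = 0`. It is orthogonal to all `(w, (a, 0))`, `w ∈ P`, iff
`B(n, w) + t a = 0` for all `w ∈ P`, `a ∈ R` iff `n ∈ P^⊥ = P` and `t = 0`. Cokernels: restriction
along `ι : P → P'`, `p ↦ (p, (0, 0))` maps `ν'(n, (s, t))` to `ν(n)`, so it induces a linear map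
`C' → C`. It is injective: if `η ∈ P'^*` and `η ∘ ι = ν(n)` then `η = ν'(n, (0, η(0, (1, 0))))`:
both sides agree on `(p, (0, 0))` and on `(0, (a, 0))`. So `length C' ≤ length C`
(`Module.length_le_of_injective`). Finally `z' ∘ ι = z`, so `z' = ν'(n, (s, t))` would give
`z = ν(n)`. -/
def G_STAB : Prop :=
  ∀ (R : Type) [CommRing R] (N : Type) [AddCommGroup N] [Module R N] (B : N →ₗ[R] N →ₗ[R] R)
    (P : Submodule R N), Lg B P →
      Lg (os B (hyp R)) (Pst P) ∧
      Module.length R (Cok (os B (hyp R)) (Pst P)) ≤ Module.length R (Cok B P) ∧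
      ∀ z : P →ₗ[R] R, z ∉ LinearMap.range (nu B P) →
        zst P z ∉ LinearMap.range (nu (os B (hyp R)) (Pst P))

/-- **NN.** Making `nx`, `ny` isotropic and orthogonal.

Proof. Put `a = B(nx, nx)`, `b = B(nx, ny)`, `c = B(ny, ny)`. The vector `p₀ = y nx - x ny` is
orthogonal to `P` (`B(p₀, p) = y x z(p) - x y z(p) = 0`), so `p₀ ∈ P` by `Lg`, so
`B(p₀, p₀) = 0` (again `Lg`): `y² a - 2xy b + x² c = 0` (symmetry). So `x ∣ y² a`, and `x` is prime
with `x ∤ y`, so `a = x α`. Then (cancel `x ≠ 0`) `y² α - 2y b + x c = 0`, so `y ∣ x c`, say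
`x c = y e`; `x ∣ y e` gives `x ∣ e`, `e = x γ`, and `c = y γ`. Put `nx' = nx - (α/2) p1`,
`ny' = ny - (γ/2) p1` (`2` is a unit). Since `B(p1, p) = 0` for `p ∈ P`, still
`B(nx', p) = x z(p)` and `B(ny', p) = y z(p)`. `B(nx', nx') = a - α B(nx, p1) + 0 = a - α x = 0`
(`z(p1) = 1`), similarly `B(ny', ny') = c - γ y = 0`. Now `y nx' - x ny'` is again in `P` for the same
reason, hence isotropic: `- 2 x y B(nx', ny') = 0`, so `B(nx', ny') = 0` (`2`, `x`, `y ≠ 0`:
`y ≠ 0` as `x ∤ y`). -/
def G_NN : Prop :=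
  ∀ (R : Type) [CommRing R] [IsDomain R] [IsLocalRing R] (x y : R), Reg2 R x y →
    IsUnit (2 : R) → ∀ (N : Type) [AddCommGroup N] [Module R N] (B : N →ₗ[R] N →ₗ[R] R),
    (∀ v w, B v w = B w v) → ∀ P : Submodule R N, Lg B P →
    ∀ (z : P →ₗ[R] R) (p1 : P) (nx ny : N), z p1 = 1 → (∀ p : P, B nx p = x * z p) →
      (∀ p : P, B ny p = y * z p) → ∃ nx' ny' : N, StepData B P x y z p1 nx' ny'

/-- **LG1.** The new submodule `P₁` is Lagrangian.

Proof. Notation: `P₀ = {p ∈ P | z p = 0}`, `P₁ = {w | w ⊥ P₀, w ⊥ nx, w ⊥ ny}`.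
(a) For `w ∈ P₁` put `a_w = B(w, p1)`. For `p ∈ P`, `p = (p - z(p) p1) + z(p) p1` with
`p - z(p) p1 ∈ P₀` (`z(p1) = 1`), so `B(w, p) = z(p) a_w`. Hence `x w - a_w nx` is orthogonal to
`P` (`x z(p) a_w - a_w x z(p) = 0`), so it is in `P`; and
`x z(x w - a_w nx) = B(nx, x w - a_w nx) = x B(nx, w) - a_w B(nx, nx) = 0`, so
`z(x w - a_w nx) = 0` as `x ≠ 0`: `x w - a_w nx ∈ P₀`.
(b) `P₁` is totally isotropic: for `w, w' ∈ P₁`: `0 = B(x w - a_w nx, w') = x B(w, w') - a_w B(nx, w')
= x B(w, w')` (`w' ⊥ P₀` and `w' ⊥ nx`), so `B(w, w') = 0`.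
(c) If `v ⊥ P₁` then `v ∈ P₁`: `P₀ ⊂ P₁` (elements of `P` are orthogonal to `P ⊃ P₀`, and
`B(p, nx) = x z(p) = 0`, `B(p, ny) = 0` for `p ∈ P₀`), `nx ∈ P₁` (`B(nx, p) = x z(p) = 0` for
`p ∈ P₀`, `B(nx, nx) = B(nx, ny) = 0`), `ny ∈ P₁` similarly. So `v` is orthogonal to `P₀`, `nx`,
`ny`, i.e. `v ∈ P₁`. -/
def G_LG1 : Prop :=
  ∀ (R : Type) [CommRing R] [IsDomain R] (x y : R), x ≠ 0 →
    ∀ (N : Type) [AddCommGroup N] [Module R N] (B : N →ₗ[R] N →ₗ[R] R),
    (∀ v w, B v w = B w v) → ∀ P : Submodule R N, Lg B P →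
    ∀ (z : P →ₗ[R] R) (p1 : P) (nx ny : N), StepData B P x y z p1 nx ny →
      Lg B (P1 B P z nx ny)

/-- **INJ.** If the restriction of a linear form `η` on `P₁` to `P₀ = ker z` is `B(v, ·)` for some
`v ∈ N` then `η = B(v', ·)` on `P₁` for some `v' ∈ N`.

Proof. (`P₀ ⊂ P₁`: see (c) in the proof of `G_LG1`; here the hypothesis is stated for all
`w ∈ P₁` that lie in `P` and satisfy `z w = 0`.) Put `η' = η - B(v, ·)`, zero on `P₀`. As in (a) of
`G_LG1`: for `w ∈ P₁`, with `a_w = B(w, p1)`, `x w - a_w nx ∈ P₀`. So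
`x η'(w) = a_w η'(nx)` for all `w ∈ P₁` (`nx ∈ P₁`). Symmetrically (using `B(w, ny) = 0` one shows
`y w - a_w ny ∈ P₀`; or apply the formula for `w = ny`, `a_{ny} = B(ny, p1) = y`): with `w = ny`:
`x η'(ny) = y η'(nx)`. Since `x` is prime and `x ∤ y`, `x ∣ η'(nx)`, `η'(nx) = x r`. Then
`x η'(w) = a_w x r`, so `η'(w) = r a_w = r B(w, p1) = B(r p1, w)` (symmetry). Hence
`η = B(v + r p1, ·)` on `P₁`. -/
def G_INJ : Prop :=
  ∀ (R : Type) [CommRing R] [IsDomain R] [IsLocalRing R] (x y : R), Reg2 R x y →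
    ∀ (N : Type) [AddCommGroup N] [Module R N] (B : N →ₗ[R] N →ₗ[R] R),
    (∀ v w, B v w = B w v) → ∀ P : Submodule R N, Lg B P →
    ∀ (z : P →ₗ[R] R) (p1 : P) (nx ny : N), StepData B P x y z p1 nx ny →
    ∀ (η : P1 B P z nx ny →ₗ[R] R) (v : N),
      (∀ (w : P1 B P z nx ny) (hw : (w : N) ∈ P), z ⟨w, hw⟩ = 0 → η w = B v w) →
      ∃ v' : N, ∀ w : P1 B P z nx ny, η w = B v' w

/-- **LEN.** The cokernel for `P₁` is strictly shorter than the cokernel for `P`.

Proof. Let `P₀ ⊂ N` be the submodule `{p ∈ P | z p = 0}` (`(LinearMap.ker z).map P.subtype`); it is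
contained in `P₁` ((c) in the proof of `G_LG1`: elements `p ∈ P₀` are orthogonal to
`P`, `B(p, nx) = x z(p) = 0`, `B(p, ny) = 0`). Let `E = P₀^* / im(N → P₀^*)`, `C = Cok B P`,
`C₁ = Cok B P₁`. Restriction of linear forms from `P₁` to `P₀` maps `ν₁(n)` to `B(n, ·)|P₀` and
induces a linear map `C₁ → E`, injective by `G_INJ`. So `length C₁ ≤ length E`. Restriction from `P` to
`P₀` induces `C → E`, surjective since every linear form `η₀` on `P₀` extends to `P` by
`p ↦ η₀(p - z(p) p1)` (`z(p1) = 1`, so `p - z(p) p1 ∈ P₀`). The class of `z` in `C` is nonzero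
(`z ∉ range ν`) and maps to `0` (`z` vanishes on `P₀`). So the kernel `Z` of `C → E` is nonzero and
`length C = length Z + length E` (`Module.length_eq_add_of_exact`) with
`length Z > 0`, `length C ≠ ⊤`, so `length E < length C`. -/
def G_LEN : Prop :=
  ∀ (R : Type) [CommRing R] [IsDomain R] [IsLocalRing R] (x y : R), Reg2 R x y →
    ∀ (N : Type) [AddCommGroup N] [Module R N] (B : N →ₗ[R] N →ₗ[R] R),
    (∀ v w, B v w = B w v) → ∀ P : Submodule R N, Lg B P →
    ∀ (z : P →ₗ[R] R) (p1 : P) (nx ny : N), StepData B P x y z p1 nx ny →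
    z ∉ LinearMap.range (nu B P) → Module.length R (Cok B P) ≠ ⊤ →
      Module.length R (Cok B (P1 B P z nx ny)) < Module.length R (Cok B P)

/-- **HYP.** If `P` is Lagrangian, free, and `N → P^*` is surjective, then the form is hyperbolic.

Proof. Let `p_1, …, p_r` be a basis of `P` indexed by `Fin r`. By surjectivity there are
`n_i ∈ N` with `B(n_i, p_j) = δ_ij` (coordinate forms). Put
`n_i' = n_i - (1/2) ∑_j B(n_i, n_j) p_j`. Then `B(n_i', p_k) = δ_ik` (`P` is isotropic) and
`B(n_i', n_k') = B(n_i, n_k) - (1/2) B(n_k, n_i) - (1/2) B(n_i, n_k) = 0` (symmetry; the third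
correction term is zero as `P` is isotropic). The linear map `R^r × R^r → N`,
`(a, b) ↦ ∑ a_i p_i + ∑ b_i n_i'` satisfies `B(image of (a, b), image of (a', b')) =
∑ a_i b_i' + b_i a_i'`, so it is injective (pair with the images of unit vectors). It is surjective: for
`v ∈ N`, `v - ∑ B(v, p_i) n_i'` is orthogonal to all `p_j`, so to `P`, so it is in `P`. -/
def G_HYP : Prop :=
  ∀ (R : Type) [CommRing R] [Nontrivial R], IsUnit (2 : R) → ∀ (N : Type) [AddCommGroup N]
    [Module R N] (B : N →ₗ[R] N →ₗ[R] R), (∀ v w, B v w = B w v) → ∀ P : Submodule R N,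
    Lg B P → Module.Free R P → Module.Finite R P →
    Function.Surjective (nu B P) → ∃ r : ℕ, Iso B (Hn R r)

/-- **SHU.** If `B ⊥ H` is stably hyperbolic, so is `B`; and if `B` is hyperbolic it is stably
hyperbolic.

Proof. `(B ⊥ hyp) ⊥ Hn j ≅ B ⊥ Hn (j+1)` (use `Fin.cons` to put the hyperbolic plane in front), and
`B ⊥ Hn 0 ≅ B`. -/
def G_SHU : Prop :=
  ∀ (R : Type) [CommRing R] (N : Type) [AddCommGroup N] [Module R N]
    (B : N →ₗ[R] N →ₗ[R] R), (SH (os B (hyp R)) → SH B) ∧ ((∃ r : ℕ, Iso B (Hn R r)) → SH B)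

/-- **IND.** A symmetric perfect form on a finite free module with a Lagrangian submodule
(`P = P^⊥`) is stably hyperbolic.

Proof. Induction on `length (Cok B P)`, finite by `G_FL` (strong induction on `k : ℕ`, for all
`(N, B, P)` with `length (Cok B P) = k`). If it is `0`, `Cok B P` is a subsingleton
(`Module.length_eq_zero_iff`), so `nu B P` is surjective, `P` is free (`G_PFREE`) and finite, and
`G_HYP`, `G_SHU` apply. Otherwise take `z, nx, ny` from `G_SOC`. Put `N' = N × (R × R)`,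
`B' = os B (hyp R)` (symmetric perfect by `G_SPM`), `P' = Pst P`, `z' = zst P z`,
`p1 = (0, (1, 0)) ∈ P'`, `z' p1 = 1`, `nx' = (nx, (0, x))`, `ny' = (ny, (0, y))`; for
`q = (p, (t, 0)) ∈ P'`: `B'(nx', q) = x z p + x t = x z'(q)`, similarly for `y`. `G_STAB`: `P'` is
Lagrangian, `length C' ≤ length C`, `z' ∉ range ν'`. `G_NN` gives `StepData`, and then `G_LG1` and
`G_LEN` (`length C' ≠ ⊤`) give a Lagrangian `P₁` in `N'` with `length C₁ < length C' ≤ length C`. By
induction `B'` is stably hyperbolic, hence `B` is by `G_SHU`. -/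
def G_IND : Prop :=
  ∀ (R : Type) [CommRing R] [IsDomain R] [IsLocalRing R] [IsNoetherianRing R] (x y : R),
    Reg2 R x y → IsUnit (2 : R) →
    ∀ (N : Type) [AddCommGroup N] [Module R N] [Module.Finite R N] [Module.Free R N]
    (B : N →ₗ[R] N →ₗ[R] R), Sp B → ∀ P : Submodule R N, Lg B P → SH B

/-- **C1.** Witt cancellation of a rank one unit form over a local ring with `2` invertible.

Proof. Let `φ : R × N₁ → R × N₂` be an isometry, `B' = os (rk1 u) B₂`, `q(v) = B'(v, v)`,
`a = φ(1, 0)`, `b = (1, 0)`; `q(a) = q(b) = u`. `q(a - b) + q(a + b) = 2 q(a) + 2 q(b) = 4u` is a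
unit, so (local ring) `q(a - b)` or `q(a + b)` is a unit. For `c` with `q(c)` a unit let
`τ_c(v) = v - 2 B'(v, c) q(c)⁻¹ c`, a linear isometry with `τ_c² = 1`. If `q(a - b)` is a unit:
`q(a - b) = 2u - 2B'(a, b) = 2 B'(a, a - b)`, so `τ_{a-b}(a) = a - (a - b) = b`. If `q(a + b)` is a
unit: `q(a + b) = 2 B'(a, a + b)`, so `τ_{a+b}(a) = -b` and `-τ_{a+b}` maps `a` to `b`. In both
cases there is an isometry `ψ` of `R × N₂` with `ψ(a) = b`. Then `θ = ψ ∘ φ` maps `(1, 0)` to
`(1, 0)` and preserves orthogonality, so it maps `(1, 0)^⊥ = 0 × N₁` (`u` is a unit: `(s, n) ⊥ (1, 0)`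
iff `u s = 0` iff `s = 0`) onto `(1, 0)^⊥ = 0 × N₂`; the induced map `N₁ → N₂`, `n ↦ (θ(0, n)).2` is a
linear isometric isomorphism (inverse: `n ↦ (θ⁻¹(0, n)).2`). -/
def G_C1 : Prop :=
  ∀ (R : Type) [CommRing R] [IsLocalRing R], IsUnit (2 : R) → ∀ u : R, IsUnit u →
    ∀ (N1 N2 : Type) [AddCommGroup N1] [Module R N1] [AddCommGroup N2] [Module R N2]
    (B1 : N1 →ₗ[R] N1 →ₗ[R] R) (B2 : N2 →ₗ[R] N2 →ₗ[R] R),
    (∀ v w, B1 v w = B1 w v) → (∀ v w, B2 v w = B2 w v) →
    Iso (os (rk1 u) B1) (os (rk1 u) B2) → Iso B1 B2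

/-- **CH.** Witt cancellation of hyperbolic forms.

Proof. Induction on `j`. For `j = 0`: `os B (Hn 0) ≅ B`. Step: `Hn (j+1) ≅ rk1 1 ⊥ (rk1 (-1) ⊥ Hn j)`:
the hyperbolic plane with form `a d + b c` is `≅ <1> ⊥ <-1>` through
`(s, t) ↦ (a, b) = ((s + t)/2, s - t)`: `a b' + b a' = (1/2)((s+t)(s'-t') + (s-t)(s'+t')) = s s' - t t'`
(bijective as `2` is a unit). So `os B (Hn (j+1)) ≅ os (rk1 1) (os (rk1 (-1)) (os B (Hn j)))`
(associativity and commutativity of orthogonal sums). From `os B1 (Hn (j+1)) ≅ os B2 (Hn (j+1))` cancel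
`rk1 1` and `rk1 (-1)` by `G_C1` (the forms `os B (Hn j)` etc. are symmetric), and use the induction
hypothesis. -/
def G_CH : Prop :=
  ∀ (R : Type) [CommRing R] [IsLocalRing R], IsUnit (2 : R) →
    ∀ (N1 N2 : Type) [AddCommGroup N1] [Module R N1] [AddCommGroup N2] [Module R N2]
    (B1 : N1 →ₗ[R] N1 →ₗ[R] R) (B2 : N2 →ₗ[R] N2 →ₗ[R] R),
    (∀ v w, B1 v w = B1 w v) → (∀ v w, B2 v w = B2 w v) → ∀ j : ℕ,
    Iso (os B1 (Hn R j)) (os B2 (Hn R j)) → Iso B1 B2

/-- **DMD.** `D ⊥ (-D)` is hyperbolic for `D = diag(u)` with unit entries.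

Proof. The map `(v, w) ↦ (a, b)`, `a_i = (u_i / 2)(v_i - w_i)`, `b_i = v_i + w_i` is a linear
bijection `R^n × R^n → R^n × R^n` and
`∑ a_i b_i' + b_i a_i' = ∑ (u_i/2) [(v_i - w_i)(v_i' + w_i') + (v_i + w_i)(v_i' - w_i')]
= ∑ u_i (v_i v_i' - w_i w_i')`. -/
def G_DMD : Prop :=
  ∀ (R : Type) [CommRing R], IsUnit (2 : R) → ∀ (n : ℕ) (u : Fin n → R), (∀ i, IsUnit (u i)) →
    Iso (os (mf (Matrix.diagonal u)) (mf (Matrix.diagonal fun i => - u i))) (Hn R n)

/-- **FIN.** If `S ⊥ (-D)` is stably hyperbolic then `S ≅ D`.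

Proof. Write `D = mf (diagonal u)`, `D⁻ = mf (diagonal (-u))`. Hypothesis:
`(S ⊥ D⁻) ⊥ Hn j ≅ Hn r` for some `j, r`; comparing ranks (`R` is nontrivial commutative,
`2n + 2j = 2r`) `r = n + j`. Orthogonal sum is commutative, associative and compatible with
isometries, and `Hn n ⊥ Hn j ≅ Hn (n + j)` (`Fin.append`/`Fin.addCases`). So
`S ⊥ Hn (n + j) ≅ S ⊥ (Hn n ⊥ Hn j) ≅ S ⊥ ((D ⊥ D⁻) ⊥ Hn j)` (`G_DMD`)
`≅ D ⊥ ((S ⊥ D⁻) ⊥ Hn j) ≅ D ⊥ Hn r = D ⊥ Hn (n + j)`. Cancel with `G_CH` (`mf S` is symmetric since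
`Sᵀ = S`). -/
def G_FIN : Prop :=
  ∀ (R : Type) [CommRing R] [IsLocalRing R], IsUnit (2 : R) →
    ∀ (n : ℕ) (u : Fin n → R), (∀ i, IsUnit (u i)) → ∀ S : Matrix (Fin n) (Fin n) R, Sᵀ = S →
    SH (os (mf S) (mf (Matrix.diagonal fun i => - u i))) → Iso (mf S) (mf (Matrix.diagonal u))

/-- **MAIN.** Representation of `f ∈ R` over `K` implies representation over `R`.

Proof. Let `x, y` generate the maximal ideal; `Reg2 R x y` by `G_REG`. `G_LAT` gives `S, A, c`.
`G_PP` gives a Lagrangian `P` for `B = S ⊥ (-D)`, which is symmetric perfect by `G_SPM`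
(`det diag(-u)` is a unit). By `G_IND` it is stably hyperbolic, so by `G_FIN` there is an isometry
`e` from `mf S` to `mf (diagonal u)`; `y = e c` satisfies `∑ u_i y_i² = cᵀ S c = f`. -/
def G_MAIN : Prop :=
  ∀ (R : Type) [CommRing R] [IsDomain R] [IsLocalRing R] [IsNoetherianRing R],
    ringKrullDim R = 2 → (∃ a b : R, IsLocalRing.maximalIdeal R = Ideal.span {a, b}) →
    IsUnit (2 : R) → ∀ (K : Type) [Field K] [Algebra R K] [IsFractionRing R K] (n : ℕ)
    (u : Fin n → R), (∀ i, IsUnit (u i)) → ∀ f : R,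
    (∃ z : Fin n → K, algebraMap R K f = ∑ i, algebraMap R K (u i) * z i ^ 2) →
      ∃ y : Fin n → R, f = ∑ i, u i * y i ^ 2

/-- **PYTH.** Equality of the Pythagoras numbers.

Proof. If every sum of squares in `K` is a sum of `n` squares and `x ∈ R` is a sum of squares in
`R` then `x` is a sum of `n` squares in `K`, so in `R` by `G_MAIN` with `u = 1`. Conversely let
`x ∈ K` be a sum of squares, `x = ∑ z_j²` (finite sum; `IsSumSq` induction). Choose `d ∈ R`, `d ≠ 0`
with `d z_j ∈ R` for all `j`; equivalently show by induction on `IsSumSq x`: there is `d ≠ 0` in `R` and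
a sum of squares `s` in `R` with `d² x = s` in `K`. By assumption `s = ∑_{i<n} f_i²` in `R`, so
`x = ∑ (f_i / d)²`. -/
def G_PYTH : Prop :=
  ∀ (R : Type) [CommRing R] [IsDomain R] [IsLocalRing R] [IsNoetherianRing R],
    ringKrullDim R = 2 → (∃ a b : R, IsLocalRing.maximalIdeal R = Ideal.span {a, b}) →
    IsUnit (2 : R) → ∀ (K : Type) [Field K] [Algebra R K] [IsFractionRing R K] (n : ℕ),
      ((∀ x : R, IsSumSq x → ∃ f : Fin n → R, x = ∑ i, f i ^ 2) ↔
        (∀ x : K, IsSumSq x → ∃ f : Fin n → K, x = ∑ i, f i ^ 2))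

end Pool.Agent.Helper71.PY
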