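import Pool.Agent.Helper71.PY.Goals

set_option autoImplicit false

namespace Pool.Agent.Helper71.PY

open Matrix

/-- restriction of cokernels along an inclusion of submodules -/
noncomputable def cokRes {R N : Type} [CommRing R] [AddCommGroup N] [Module R N]
    (B : N →ₗ[R] N →ₗ[R] R) {P Q : Submodule R N} (h : P ≤ Q) : Cok B Q →ₗ[R] Cok B P :=
  Submodule.mapQ _ _ (LinearMap.lcomp R R (Submodule.inclusion h)) (by
    rintro _ ⟨n, rfl⟩
    exact ⟨n, rfl⟩)

theorem cokRes_mk {R N : Type} [CommRing R] [AddCommGroup N] [Module R N]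
    (B : N →ₗ[R] N →ₗ[R] R) {P Q : Submodule R N} (h : P ≤ Q) (η : Q →ₗ[R] R) :
    cokRes B h (Submodule.Quotient.mk η) =
      Submodule.Quotient.mk (η ∘ₗ Submodule.inclusion h) := rfl

theorem len (hINJ : G_INJ) : G_LEN := by
  intro R _ _ _ x y hreg N _ _ B hsymm P hP z p1 nx ny hsd hz hne
  set P₀ : Submodule R N := (LinearMap.ker z).map P.subtype with hP₀
  have hP₀P : P₀ ≤ P := by
    rintro _ ⟨p, _, rfl⟩
    exact p.2
  have hPP : ∀ p ∈ P, ∀ q ∈ P, B p q = 0 := fun p hp => (hP p).mp hp
  have hP₀1 : P₀ ≤ P1 B P z nx ny := by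
    rintro _ ⟨p, hp, rfl⟩
    have hzp : z p = 0 := hp
    refine ⟨fun q _ => hPP _ p.2 _ q.2, ?_, ?_⟩
    · rw [hsymm]
      have := hsd.hx p
      rw [hzp, mul_zero] at this
      exact this
    · rw [hsymm]
      have := hsd.hy p
      rw [hzp, mul_zero] at this
      exact this
  -- the map from the new cokernel
  have hinj : Function.Injective (cokRes B hP₀1) := by
    rw [← LinearMap.ker_eq_bot, LinearMap.ker_eq_bot']
    intro c hc
    obtain ⟨η, rfl⟩ := Submodule.Quotient.mk_surjective _ c
    rw [cokRes_mk, Submodule.Quotient.mk_eq_zero] at hc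
    obtain ⟨v, hv⟩ := hc
    obtain ⟨v', hv'⟩ := hINJ R x y hreg N B hsymm P hP z p1 nx ny hsd η v (by
      intro w hw hzw
      have hwP₀ : (w : N) ∈ P₀ := ⟨⟨w, hw⟩, hzw, rfl⟩
      have := LinearMap.congr_fun hv ⟨w, hwP₀⟩
      simp only [nu_apply, LinearMap.comp_apply] at this
      exact this.symm)
    rw [Submodule.Quotient.mk_eq_zero]
    exact ⟨v', LinearMap.ext fun w => (hv' w).symm⟩
  have hle : Module.length R (Cok B (P1 B P z nx ny)) ≤ Module.length R (Cok B P₀) :=
    Module.length_le_of_injective _ hinj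
  -- the map from the old cokernel
  have hsurj : Function.Surjective (cokRes B hP₀P) := by
    intro c
    obtain ⟨η, rfl⟩ := Submodule.Quotient.mk_surjective _ c
    let ρ : P →ₗ[R] P₀ :=
      { toFun := fun p => ⟨(p - z p • p1 : P), ⟨p - z p • p1, by
          show z (p - z p • p1) = 0
          rw [map_sub, map_smul, hsd.one, smul_eq_mul, mul_one, sub_self], rfl⟩⟩
        map_add' := fun p q => Subtype.ext (by
          simp only [map_add, add_smul, Submodule.coe_sub, Submodule.coe_add,
            Submodule.coe_smul]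
          abel)
        map_smul' := fun r p => Subtype.ext (by
          simp only [map_smul, smul_eq_mul, mul_smul, Submodule.coe_sub,
            Submodule.coe_smul, RingHom.id_apply, smul_sub]) }
    refine ⟨Submodule.Quotient.mk (η ∘ₗ ρ), ?_⟩
    rw [cokRes_mk]
    congr 1
    ext q
    obtain ⟨q, hq⟩ := q
    obtain ⟨p, hp, hpq⟩ := hq
    have hzp : z p = 0 := hp
    subst hpq
    simp only [LinearMap.comp_apply]
    congr 1
    apply Subtype.ext
    have h1 : (Submodule.inclusion hP₀P ⟨P.subtype p, ⟨p, hp, rfl⟩⟩ : P) = p := rfl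
    rw [h1]
    show ((p - z p • p1 : P) : N) = _
    rw [hzp, zero_smul, sub_zero]
    rfl
  set f := cokRes B hP₀P with hf
  have hlen : Module.length R (Cok B P) =
      Module.length R (LinearMap.ker f) + Module.length R (Cok B P₀) :=
    Module.length_eq_add_of_exact (LinearMap.ker f).subtype f (Submodule.subtype_injective _)
      hsurj (LinearMap.exact_subtype_ker_map f)
  have hnt : Nontrivial (LinearMap.ker f) := by
    refine ⟨⟨⟨Submodule.Quotient.mk z, ?_⟩, 0, ?_⟩⟩
    · rw [LinearMap.mem_ker, hf, cokRes_mk, Submodule.Quotient.mk_eq_zero]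
      refine ⟨0, ?_⟩
      ext q
      obtain ⟨q, hq⟩ := q
      obtain ⟨p, hp, hpq⟩ := hq
      have hzp : z p = 0 := hp
      subst hpq
      simp only [map_zero, LinearMap.zero_apply, LinearMap.comp_apply]
      have h1 : (Submodule.inclusion hP₀P ⟨P.subtype p, ⟨p, hp, rfl⟩⟩ : P) = p := rfl
      rw [h1, hzp]
    · intro h0
      apply hz
      have := congrArg Subtype.val h0
      simp only [ZeroMemClass.coe_zero] at this
      rwa [Submodule.Quotient.mk_eq_zero] at this
  have hpos : 0 < Module.length R (LinearMap.ker f) := Module.length_pos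
  refine hle.trans_lt ?_
  rw [hlen] at hne ⊢
  have hfin : Module.length R (Cok B P₀) ≠ ⊤ := fun h => hne (by rw [h, add_top])
  calc Module.length R (Cok B P₀) = 0 + Module.length R (Cok B P₀) := (zero_add _).symm
    _ < _ := by
      exact (ENat.add_lt_add_iff_right hfin).mpr hpos

end Pool.Agent.Helper71.PY
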