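import Pool.Agent.Helper71.PY.Goals

set_option autoImplicit false

namespace Pool.Agent.Helper71.PY

theorem bK_smul_left {R K : Type} [CommRing R] [Field K] [Algebra R K] {n : ℕ}
    (d v w : Fin n → K) (r : R) : bK d (r • v) w = algebraMap R K r * bK d v w := by
  unfold bK
  rw [Finset.mul_sum]
  refine Finset.sum_congr rfl fun i _ => ?_
  simp only [Pi.smul_apply, Algebra.smul_def]
  ring

theorem bK_comm {K : Type} [Field K] {n : ℕ} (d v w : Fin n → K) : bK d v w = bK d w v := by
  unfold bK
  refine Finset.sum_congr rfl fun i _ => ?_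
  ring

theorem int_of_xy {R : Type} [CommRing R] [IsDomain R] [IsLocalRing R] {x y : R}
    (h : Reg2 R x y) {K : Type} [Field K] [Algebra R K] [IsFractionRing R K] {c : K}
    (h1 : IntK R (algebraMap R K x * c)) (h2 : IntK R (algebraMap R K y * c)) : IntK R c := by
  obtain ⟨r, hr⟩ := h1
  obtain ⟨s, hs⟩ := h2
  have hinj : Function.Injective (algebraMap R K) := IsFractionRing.injective R K
  have hx0 : algebraMap R K x ≠ 0 := by
    intro h0
    exact h.prx.ne_zero (hinj (by rw [h0, map_zero]))
  have e : y * r = x * s := by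
    apply hinj
    rw [map_mul, map_mul, hr, hs]
    ring
  have hd : x ∣ y * r := ⟨s, e⟩
  rcases h.prx.dvd_or_dvd hd with h3 | ⟨t, ht⟩
  · exact absurd h3 h.ndvd
  · refine ⟨t, ?_⟩
    have : algebraMap R K x * algebraMap R K t = algebraMap R K x * c := by
      rw [← map_mul, ← ht, hr]
    exact mul_left_cancel₀ hx0 this

theorem xy : G_XY := by
  intro R _ _ _ _ x y h K _ _ _ n d M hM z hx hy
  have key : ∀ w : Fin n → K, IntK R (bK d (x • z) w) → IntK R (bK d (y • z) w) →
      IntK R (bK d z w) := by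
    intro w h1 h2
    rw [bK_smul_left] at h1 h2
    exact int_of_xy h h1 h2
  have h1 : ∀ w ∈ M, IntK R (bK d z w) := fun w hw =>
    key w (hM.int _ hx _ hw) (hM.int _ hy _ hw)
  refine hM.maxl z h1 (key z ?_ ?_)
  · rw [bK_comm]
    exact h1 _ hx
  · rw [bK_comm]
    exact h1 _ hy

end Pool.Agent.Helper71.PY
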