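import Pool.Agent.Helper11.PY.MAIN
import Pool.Agent.Helper15.PY.UFD
import Pool.Agent.Helper16.PY.EXT
import Pool.Agent.Helper20.PY.CH
import Pool.Agent.Helper27.PY.FREE
import Pool.Agent.Helper3.PY.NN
import Pool.Agent.Helper31.PY.REG
import Pool.Agent.Helper35.PY.DMD
import Pool.Agent.Helper35.PY.SHU
import Pool.Agent.Helper48.PY.LAT
import Pool.Agent.Helper5.PY.PFREE
import Pool.Agent.Helper50.PY.HYP
import Pool.Agent.Helper55.PY.LG1
import Pool.Agent.Helper56.PY.MIX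
import Pool.Agent.Helper59.PY.INJ
import Pool.Agent.Helper67.PY.DD
import Pool.Agent.Helper69.PY.DVR
import Pool.Agent.Helper7.PY.SOC
import Pool.Agent.Helper75.PY.C1
import Pool.Agent.Helper77.PY.FL
import Pool.Agent.Helper79.PY.BAS
import Pool.Agent.Helper82.PY.SPM
import Pool.Agent.Helper87.PY.UNIM
import Pool.Agent.Helper93.PY.STAB
import Pool.Agent.Helper71.PY.XY
import Pool.Agent.Helper9.PY.PP
import Pool.Agent.Helper71.PY.LEN
import Pool.Agent.Helper71.PY.IND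
import Pool.Agent.Helper32.PY.FIN
import Pool.Agent.Helper32.PY.PYTH

/-!
# Assembly for MP_293fae_al
-/

set_option autoImplicit false

namespace Pool.Agent.Helper71.PY.Asm

open Pool.Agent.Helper71.PY

theorem t_REG : G_REG := Pool.Agent.Helper31.PY.reg
theorem t_FREE : G_FREE := Pool.Agent.Helper27.PY.free_lem
theorem t_UFD : G_UFD := Pool.Agent.Helper15.PY.ufd t_FREE
theorem t_DVR : G_DVR := Pool.Agent.Helper69.PY.dvr
theorem t_DD : G_DD := Pool.Agent.Helper67.PY.dd t_DVR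
theorem t_MIX : G_MIX := Pool.Agent.Helper56.PY.mix
theorem t_XY : G_XY := Pool.Agent.Helper71.PY.xy
theorem t_UNIM : G_UNIM := Pool.Agent.Helper87.PY.unim t_XY t_UFD t_DD
theorem t_BAS : G_BAS := Pool.Agent.Helper79.PY.bas t_XY t_FREE
theorem t_LAT : G_LAT := Pool.Agent.Helper48.PY.lat t_MIX t_BAS t_UNIM
theorem t_PP : G_PP := Pool.Agent.Helper9.PY.pp
theorem t_SPM : G_SPM := Pool.Agent.Helper82.PY.spm
theorem t_PFREE : G_PFREE := Pool.Agent.Helper5.PY.pfree t_FREE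
theorem t_EXT : G_EXT := Pool.Agent.Helper16.PY.ext t_DVR
theorem t_FL : G_FL := Pool.Agent.Helper77.PY.fl t_PFREE t_EXT t_UFD
theorem t_SOC : G_SOC := Pool.Agent.Helper7.PY.soc
theorem t_STAB : G_STAB := Pool.Agent.Helper93.PY.stab
theorem t_NN : G_NN := Pool.Agent.Helper3.PY.nn
theorem t_LG1 : G_LG1 := Pool.Agent.Helper55.PY.lg1
theorem t_INJ : G_INJ := Pool.Agent.Helper59.PY.inj
theorem t_LEN : G_LEN := Pool.Agent.Helper71.PY.len t_INJ
theorem t_HYP : G_HYP := Pool.Agent.Helper50.PY.hyp_lem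
theorem t_SHU : G_SHU := Pool.Agent.Helper35.PY.shu
theorem t_IND : G_IND :=
  Pool.Agent.Helper71.PY.ind t_FL t_PFREE t_SOC t_STAB t_NN t_LG1 t_LEN t_HYP t_SHU t_SPM
theorem t_C1 : G_C1 := Pool.Agent.Helper75.PY.c1
theorem t_CH : G_CH := Pool.Agent.Helper20.PY.ch t_C1
theorem t_DMD : G_DMD := Pool.Agent.Helper35.PY.dmd
theorem t_FIN : G_FIN := Pool.Agent.Helper32.PY.fin_lem t_CH t_DMD
theorem t_MAIN : G_MAIN := Pool.Agent.Helper11.PY.main t_REG t_LAT t_PP t_SPM t_IND t_FIN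
theorem t_PYTH : G_PYTH := Pool.Agent.Helper32.PY.pyth t_MAIN

end Pool.Agent.Helper71.PY.Asm
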