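import Mathlib

/-!
# Definitions for MP_293fae_al (sums of squares in two-dimensional regular local rings)
-/

set_option autoImplicit false

namespace Pool.Agent.Helper71.PY

open Matrix

/-- Two-dimensional regular local data, in elementary form: the maximal ideal is `(x, y)`, `x` is
prime, `x` does not divide `y`, and every `r` not divisible by `x` is congruent to a unit times a
power of `y` modulo `x` (so `R / x` is a discrete valuation ring with uniformizer `y`). -/
structure Reg2 (R : Type) [CommRing R] [IsDomain R] [IsLocalRing R] (x y : R) : Prop where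
  max : IsLocalRing.maximalIdeal R = Ideal.span {x, y}
  prx : Prime x
  ndvd : ¬ x ∣ y
  norm : ∀ r : R, ¬ x ∣ r → ∃ (k : ℕ) (u : R), IsUnit u ∧ x ∣ r - u * y ^ k

/-- The element `z` of `K` comes from `R`. -/
def IntK (R : Type) {K : Type} [CommRing R] [Field K] [Algebra R K] (z : K) : Prop :=
  ∃ r : R, algebraMap R K r = z

/-- The diagonal symmetric bilinear form `∑ d_i v_i w_i` on `K^n`. -/
def bK {K : Type} [Field K] {n : ℕ} (d v w : Fin n → K) : K := ∑ i, d i * v i * w i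

/-- A maximal integral lattice of `(K^n, bK d)`. -/
structure MI {R K : Type} [CommRing R] [Field K] [Algebra R K] {n : ℕ} (d : Fin n → K)
    (M : Submodule R (Fin n → K)) : Prop where
  fg : M.FG
  full : ∀ v : Fin n → K, ∃ r : R, r ≠ 0 ∧ r • v ∈ M
  int : ∀ v ∈ M, ∀ w ∈ M, IntK R (bK d v w)
  maxl : ∀ v : Fin n → K, (∀ w ∈ M, IntK R (bK d v w)) → IntK R (bK d v v) → v ∈ M

section forms

variable {R : Type} [CommRing R]
variable {N N' : Type} [AddCommGroup N] [Module R N] [AddCommGroup N'] [Module R N']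

/-- A symmetric perfect (unimodular) bilinear form. -/
structure Sp (B : N →ₗ[R] N →ₗ[R] R) : Prop where
  symm : ∀ v w, B v w = B w v
  perf : Function.Bijective (fun v : N => B v)

/-- The two bilinear modules are isometric. -/
def Iso (B : N →ₗ[R] N →ₗ[R] R) (B' : N' →ₗ[R] N' →ₗ[R] R) : Prop :=
  ∃ e : N ≃ₗ[R] N', ∀ v w, B' (e v) (e w) = B v w

/-- Orthogonal sum. -/
def os (B : N →ₗ[R] N →ₗ[R] R) (B' : N' →ₗ[R] N' →ₗ[R] R) :
    (N × N') →ₗ[R] (N × N') →ₗ[R] R :=
  LinearMap.mk₂ R (fun v w => B v.1 w.1 + B' v.2 w.2)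
    (by intro a b c; simp; abel) (by intro a b c; simp [mul_add])
    (by intro a b c; simp; abel) (by intro a b c; simp [mul_add])

/-- The rank one form `u s t` on `R`. -/
def rk1 (u : R) : R →ₗ[R] R →ₗ[R] R :=
  LinearMap.mk₂ R (fun s t => u * s * t)
    (by intro a b c; ring) (by intro a b c; simp; ring)
    (by intro a b c; ring) (by intro a b c; simp; ring)

/-- The hyperbolic form of rank `2r`. -/
def Hn (R : Type) [CommRing R] (r : ℕ) :
    ((Fin r → R) × (Fin r → R)) →ₗ[R] ((Fin r → R) × (Fin r → R)) →ₗ[R] R :=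
  LinearMap.mk₂ R (fun v w => v.1 ⬝ᵥ w.2 + v.2 ⬝ᵥ w.1)
    (by intro a b c; simp; ring) (by intro a b c; simp; ring)
    (by intro a b c; simp; ring) (by intro a b c; simp; ring)

/-- The hyperbolic plane on `R × R`. -/
def hyp (R : Type) [CommRing R] : (R × R) →ₗ[R] (R × R) →ₗ[R] R :=
  LinearMap.mk₂ R (fun v w => v.1 * w.2 + v.2 * w.1)
    (by intro a b c; simp; ring) (by intro a b c; simp; ring)
    (by intro a b c; simp; ring) (by intro a b c; simp; ring)

/-- The form on `R^n` with Gram matrix `S`. -/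
def mf {n : ℕ} (S : Matrix (Fin n) (Fin n) R) : (Fin n → R) →ₗ[R] (Fin n → R) →ₗ[R] R :=
  LinearMap.mk₂ R (fun v w => v ⬝ᵥ S *ᵥ w)
    (by intro a b c; simp) (by intro a b c; simp)
    (by intro a b c; simp [mulVec_add]) (by intro a b c; simp [mulVec_smul])

@[simp] theorem os_apply (B : N →ₗ[R] N →ₗ[R] R) (B' : N' →ₗ[R] N' →ₗ[R] R) (v w : N × N') :
    os B B' v w = B v.1 w.1 + B' v.2 w.2 := rfl

@[simp] theorem rk1_apply (u s t : R) : rk1 u s t = u * s * t := rfl

@[simp] theorem Hn_apply (r : ℕ) (v w : (Fin r → R) × (Fin r → R)) :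
    Hn R r v w = v.1 ⬝ᵥ w.2 + v.2 ⬝ᵥ w.1 := rfl

@[simp] theorem hyp_apply (v w : R × R) : hyp R v w = v.1 * w.2 + v.2 * w.1 := rfl

@[simp] theorem mf_apply {n : ℕ} (S : Matrix (Fin n) (Fin n) R) (v w : Fin n → R) :
    mf S v w = v ⬝ᵥ S *ᵥ w := rfl

/-- `P` is equal to its own orthogonal. -/
def Lg (B : N →ₗ[R] N →ₗ[R] R) (P : Submodule R N) : Prop :=
  ∀ v, v ∈ P ↔ ∀ w ∈ P, B v w = 0

/-- The map `N → P^*`, `v ↦ B(v, ·)`. -/
def nu (B : N →ₗ[R] N →ₗ[R] R) (P : Submodule R N) : N →ₗ[R] (P →ₗ[R] R) :=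
  (LinearMap.lcomp R R P.subtype) ∘ₗ B

@[simp] theorem nu_apply (B : N →ₗ[R] N →ₗ[R] R) (P : Submodule R N) (v : N) (p : P) :
    nu B P v p = B v p := rfl

/-- The cokernel of `N → P^*`. -/
abbrev Cok (B : N →ₗ[R] N →ₗ[R] R) (P : Submodule R N) : Type :=
  (P →ₗ[R] R) ⧸ LinearMap.range (nu B P)

/-- Stably hyperbolic. -/
def SH (B : N →ₗ[R] N →ₗ[R] R) : Prop := ∃ j r : ℕ, Iso (os B (Hn R j)) (Hn R r)

/-- The submodule of all `w` orthogonal to the kernel of `z` and to `a` and `b`. -/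
def P1 (B : N →ₗ[R] N →ₗ[R] R) (P : Submodule R N) (z : P →ₗ[R] R) (a b : N) : Submodule R N where
  carrier := {w | (∀ p : P, z p = 0 → B w p = 0) ∧ B w a = 0 ∧ B w b = 0}
  add_mem' := by
    rintro v w ⟨h1, h2, h3⟩ ⟨k1, k2, k3⟩
    refine ⟨fun p hp => ?_, ?_, ?_⟩
    · simp [h1 p hp, k1 p hp]
    · simp [h2, k2]
    · simp [h3, k3]
  zero_mem' := by simp
  smul_mem' := by
    rintro c v ⟨h1, h2, h3⟩
    refine ⟨fun p hp => ?_, ?_, ?_⟩
    · simp [h1 p hp]
    · simp [h2]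
    · simp [h3]

/-- The submodule `P × (R × 0)` of `N × (R × R)`. -/
def Pst (P : Submodule R N) : Submodule R (N × (R × R)) :=
  P.prod ((⊤ : Submodule R R).prod ⊥)

/-- The linear form `(p, (t, 0)) ↦ z p + t` on `P × (R × 0)`. -/
def zst (P : Submodule R N) (z : P →ₗ[R] R) : Pst P →ₗ[R] R where
  toFun p := z ⟨p.1.1, p.2.1⟩ + p.1.2.1
  map_add' := by
    intro a b
    have : (⟨(a + b).1.1, (a + b).2.1⟩ : P) = ⟨a.1.1, a.2.1⟩ + ⟨b.1.1, b.2.1⟩ := rfl
    rw [this, map_add]
    simp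
    ring
  map_smul' := by
    intro c a
    have : (⟨(c • a).1.1, (c • a).2.1⟩ : P) = c • ⟨a.1.1, a.2.1⟩ := rfl
    rw [this, map_smul]
    simp
    ring

end forms

/-- All the data of the induction step: `z` is a linear form on `P` with value `1` at `p1`,
represented by `nx`, `ny` after multiplication by `x`, `y`, and `nx`, `ny` span a totally
isotropic module. -/
structure StepData {R N : Type} [CommRing R] [AddCommGroup N] [Module R N]
    (B : N →ₗ[R] N →ₗ[R] R) (P : Submodule R N) (x y : R) (z : P →ₗ[R] R) (p1 : P)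
    (nx ny : N) : Prop where
  one : z p1 = 1
  hx : ∀ p : P, B nx p = x * z p
  hy : ∀ p : P, B ny p = y * z p
  xx : B nx nx = 0
  yy : B ny ny = 0
  xy : B nx ny = 0

end Pool.Agent.Helper71.PY
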