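import Pool.Agent.Helper71.PY.Goals

set_option autoImplicit false

namespace Pool.Agent.Helper71.PY

open Matrix

theorem ind (hFL : G_FL) (hPFREE : G_PFREE) (hSOC : G_SOC) (hSTAB : G_STAB) (hNN : G_NN)
    (hLG1 : G_LG1) (hLEN : G_LEN) (hHYP : G_HYP) (hSHU : G_SHU) (hSPM : G_SPM) : G_IND := by
  intro R _ _ _ _ x y hreg h2
  have hx0 : x ≠ 0 := hreg.prx.ne_zero
  have key : ∀ k : ℕ, ∀ (N : Type) [AddCommGroup N] [Module R N] [Module.Finite R N]
      [Module.Free R N] (B : N →ₗ[R] N →ₗ[R] R), Sp B → ∀ P : Submodule R N, Lg B P →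
      Module.length R (Cok B P) = (k : ℕ∞) → SH B := by
    intro k
    induction k using Nat.strong_induction_on with
    | _ k ih =>
      intro N _ _ _ _ B hB P hP hlen
      have hne : Module.length R (Cok B P) ≠ ⊤ := by
        rw [hlen]; exact ENat.natCast_ne_top k
      by_cases hk : k = 0
      · subst hk
        have h0 : Module.length R (Cok B P) = 0 := by rw [hlen]; rfl
        rw [Module.length_eq_zero_iff] at h0
        have hsurj : Function.Surjective (nu B P) := by
          rw [← LinearMap.range_eq_top]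
          exact Submodule.Quotient.subsingleton_iff.mp h0
        have : Module.Free R P := hPFREE R x y hreg N B P hP
        obtain ⟨r, hr⟩ := hHYP R h2 N B hB.symm P hP inferInstance inferInstance hsurj
        exact (hSHU R N B).2 ⟨r, hr⟩
      · have hlen0 : Module.length R (Cok B P) ≠ 0 := by
          rw [hlen]
          exact_mod_cast hk
        obtain ⟨z, nx, ny, hz, hnx, hny⟩ := hSOC R x y hreg N B P hne hlen0
        have hB' : Sp (os B (hyp R)) := hSPM.2.1 R N (R × R) B (hyp R) hB (hSPM.2.2 R)
        obtain ⟨hL', hlen', hz'⟩ := hSTAB R N B P hP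
        have hz' := hz' z hz
        have hmem : ((0, (1, 0)) : N × (R × R)) ∈ Pst P := by
          refine Submodule.mem_prod.mpr ⟨P.zero_mem, ?_⟩
          exact Submodule.mem_prod.mpr ⟨Submodule.mem_top, Submodule.mem_bot R |>.mpr rfl⟩
        have hone : zst P z ⟨(0, (1, 0)), hmem⟩ = 1 := by
          have h3 : zst P z ⟨(0, (1, 0)), hmem⟩ = z ⟨0, P.zero_mem⟩ + 1 := rfl
          rw [h3]
          have h4 : (⟨0, P.zero_mem⟩ : P) = 0 := rfl
          rw [h4, map_zero, zero_add]
        have hq : ∀ (a : R) (n : N), (∀ p : P, B n p = a * z p) →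
            ∀ q : Pst P, os B (hyp R) (n, (0, a)) q = a * zst P z q := by
          intro a n hn q
          obtain ⟨⟨p, t, s⟩, hp⟩ := q
          have hs : s = 0 := by
            have := (Submodule.mem_prod.mp hp).2
            exact (Submodule.mem_bot R).mp (Submodule.mem_prod.mp this).2
          have hpP : p ∈ P := (Submodule.mem_prod.mp hp).1
          have h3 : zst P z ⟨(p, (t, s)), hp⟩ = z ⟨p, hpP⟩ + t := rfl
          rw [h3]
          have h4 := hn ⟨p, hpP⟩
          simp only at h4
          simp only [os_apply, hyp_apply, h4]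
          ring
        obtain ⟨nx', ny', hsd⟩ := hNN R x y hreg h2 (N × (R × R)) (os B (hyp R)) hB'.symm
          (Pst P) hL' (zst P z) ⟨(0, (1, 0)), hmem⟩ (nx, (0, x)) (ny, (0, y)) hone
          (hq x nx hnx) (hq y ny hny)
        have hL1 := hLG1 R x y hx0 (N × (R × R)) (os B (hyp R)) hB'.symm (Pst P) hL' (zst P z)
          ⟨(0, (1, 0)), hmem⟩ nx' ny' hsd
        have hne' : Module.length R (Cok (os B (hyp R)) (Pst P)) ≠ ⊤ :=
          ne_top_of_le_ne_top hne hlen'
        have hlt := hLEN R x y hreg (N × (R × R)) (os B (hyp R)) hB'.symm (Pst P) hL' (zst P z)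
          ⟨(0, (1, 0)), hmem⟩ nx' ny' hsd hz' hne'
        have hlt2 : Module.length R (Cok (os B (hyp R)) (P1 (os B (hyp R)) (Pst P) (zst P z) nx' ny')) <
            (k : ℕ∞) := by
          rw [← hlen]
          exact hlt.trans_le hlen'
        obtain ⟨k', hk'⟩ := ENat.ne_top_iff_exists.mp (ne_top_of_lt hlt2)
        have hkk : k' < k := by
          rw [← hk'] at hlt2
          exact_mod_cast hlt2
        have := ih k' hkk (N × (R × R)) (os B (hyp R)) hB' _ hL1 hk'.symm
        exact (hSHU R N B).1 this
  intro N _ _ _ _ B hB P hP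
  have hne := hFL R x y hreg N B hB P hP
  obtain ⟨k, hk⟩ := ENat.ne_top_iff_exists.mp hne
  exact key k N B hB P hP hk.symm

end Pool.Agent.Helper71.PY
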